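import Pool.Agent.H39.TO.Targets

namespace Pool.Agent.H13.TOH
open Pool.Agent.H57.CP Pool.Agent.H39.TO

theorem mk_cm (x y : V4) : mk x y = mk y x := by simp [mk]; ring

theorem refl_apply' (a x : V4) : H57.CP.refl a x = x + (2 * mk a x) • a := by
  ext i; simp [H57.CP.refl]

theorem refl_neg' (a : V4) : H57.CP.refl (-a) = H57.CP.refl a := by
  ext i j; simp [H57.CP.refl, mk]; ring

theorem refl_conj (u v : V4) (hu : mk u u = -1) :
    H57.CP.refl (H57.CP.refl u v) = H57.CP.refl u * H57.CP.refl v * H57.CP.refl u := by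
  apply LinearMap.ext
  intro x
  have e1 : mk (H57.CP.refl u v) x = mk v (H57.CP.refl u x) := by
    simp only [refl_apply']
    simp only [mk, Pi.add_apply, Pi.smul_apply, smul_eq_mul]
    ring
  have e2 : ∀ z, H57.CP.refl u (H57.CP.refl u z) = z := by
    intro z
    have : mk u (z + (2 * mk u z) • u) = - mk u z := by
      have h : mk u (z + (2 * mk u z) • u) = mk u z + 2 * mk u z * mk u u := by
        simp only [mk, Pi.add_apply, Pi.smul_apply, smul_eq_mul]
        ring
      rw [h, hu]; ring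
    rw [refl_apply' u (H57.CP.refl u z), refl_apply' u z, this]
    ext i
    simp only [Pi.add_apply, Pi.smul_apply, smul_eq_mul]
    ring
  rw [Module.End.mul_apply, Module.End.mul_apply, refl_apply' (H57.CP.refl u v) x, e1,
    refl_apply' v (H57.CP.refl u x), map_add, map_smul, e2]

/-- the unit vector at angle `φ` -/
noncomputable def W (x t : V4) (a φ : ℝ) : V4 :=
  (1 / Real.sin a) • (-(Real.sin φ) • t - (Real.sin (φ - a)) • x)

theorem mk_W (x t : V4) (a φ ψ : ℝ) (ha : Real.sin a ≠ 0) (hx : mk x x = -1) (ht : mk t t = -1)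
    (hxt : mk x t = Real.cos a) : mk (W x t a φ) (W x t a ψ) = - Real.cos (φ - ψ) := by
  have h : mk (W x t a φ) (W x t a ψ) = (1 / Real.sin a) ^ 2 * (Real.sin φ * Real.sin ψ * mk t t +
      (Real.sin φ * Real.sin (ψ - a) + Real.sin ψ * Real.sin (φ - a)) * mk x t +
      Real.sin (φ - a) * Real.sin (ψ - a) * mk x x) := by
    simp only [W, mk, Pi.sub_apply, Pi.smul_apply, smul_eq_mul]
    ring
  rw [h, hx, ht, hxt, Real.sin_sub, Real.sin_sub, Real.cos_sub]
  have hs := Real.sin_sq_add_cos_sq a
  field_simp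
  have hc : Real.cos a ^ 2 = 1 - Real.sin a ^ 2 := by linarith
  ring_nf
  rw [hc]
  ring

theorem refl_W (x t : V4) (a φ ψ : ℝ) (ha : Real.sin a ≠ 0) (hx : mk x x = -1) (ht : mk t t = -1)
    (hxt : mk x t = Real.cos a) : H57.CP.refl (W x t a φ) (W x t a ψ) = - W x t a (2 * φ - ψ) := by
  rw [refl_apply', mk_W x t a φ ψ ha hx ht hxt]
  have key : ∀ α β : ℝ, Real.sin β - 2 * Real.cos (α - β) * Real.sin α =
      - Real.sin (2 * α - β) := by
    intro α β
    have : 2 * α - β = α + (α - β) := by ring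
    rw [this, Real.sin_add, Real.cos_sub, Real.sin_sub]
    have hs := Real.sin_sq_add_cos_sq α
    have hc : Real.cos α ^ 2 = 1 - Real.sin α ^ 2 := by linarith
    ring_nf
    rw [hc]
    ring
  have k1 := key φ ψ
  have k2 := key (φ - a) (ψ - a)
  have e : φ - a - (ψ - a) = φ - ψ := by ring
  have e' : 2 * (φ - a) - (ψ - a) = 2 * φ - ψ - a := by ring
  rw [e, e'] at k2
  ext i
  simp only [W, Pi.add_apply, Pi.smul_apply, Pi.sub_apply, Pi.neg_apply, smul_eq_mul]
  linear_combination (-(1 / Real.sin a) * t i) * k1 + (-(1 / Real.sin a) * x i) * k2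

theorem pf_DPT : T_DPT := by
  intro x y k N hx hy hN hk hkN hco hxy
  set a : ℝ := Real.pi / N with ha
  have hNR : (0 : ℝ) < N := by exact_mod_cast (by omega : 0 < N)
  have hka : (k * Real.pi / N : ℝ) = k * a := by rw [ha]; ring
  have hka' : ((k - 1) * Real.pi / N : ℝ) = (k - 1) * a := by rw [ha]; ring
  have hapos : 0 < a := by rw [ha]; positivity
  have hsa : Real.sin a ≠ 0 := by
    apply ne_of_gt
    apply Real.sin_pos_of_pos_of_lt_pi hapos
    rw [ha, div_lt_iff₀ hNR]
    have h3 : (3 : ℝ) ≤ N := by exact_mod_cast hN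
    nlinarith [Real.pi_pos]
  have hsk : Real.sin (k * a) ≠ 0 := by
    apply ne_of_gt
    apply Real.sin_pos_of_pos_of_lt_pi
    · have : (0 : ℝ) < k := by exact_mod_cast hk
      positivity
    · rw [ha, mul_div_assoc', div_lt_iff₀ hNR]
      have : (k : ℝ) < N := by exact_mod_cast hkN
      nlinarith [Real.pi_pos]
  rw [hka] at hxy
  rw [hka, hka']
  set t : V4 := (1 / Real.sin (k * a)) • (Real.sin a • y - Real.sin ((k - 1) * a) • x) with ht
  have hk1 : Real.sin ((k - 1) * a) = Real.sin (k * a) * Real.cos a -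
      Real.cos (k * a) * Real.sin a := by
    rw [← Real.sin_sub]; congr 1; ring
  have hyt : Real.sin a • y = Real.sin (k * a) • t + Real.sin ((k - 1) * a) • x := by
    rw [ht]
    ext i
    simp only [Pi.add_apply, Pi.smul_apply, Pi.sub_apply, smul_eq_mul]
    field_simp
    ring
  have hxt : mk x t = Real.cos a := by
    have h : mk x t = (1 / Real.sin (k * a)) * (Real.sin a * mk x y -
        Real.sin ((k - 1) * a) * mk x x) := by
      rw [ht]
      simp only [mk, Pi.sub_apply, Pi.smul_apply, smul_eq_mul]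
      ring
    rw [h, hxy, hx, hk1]
    field_simp
    ring
  have htt : mk t t = -1 := by
    have h : mk t t = (1 / Real.sin (k * a)) ^ 2 * (Real.sin a ^ 2 * mk y y -
        2 * Real.sin a * Real.sin ((k - 1) * a) * mk x y +
        Real.sin ((k - 1) * a) ^ 2 * mk x x) := by
      rw [ht]
      simp only [mk, Pi.sub_apply, Pi.smul_apply, smul_eq_mul]
      ring
    rw [h, hxy, hx, hy, hk1]
    have hs := Real.sin_sq_add_cos_sq a
    have hs2 := Real.sin_sq_add_cos_sq (k * a)
    field_simp
    have hc : Real.cos a ^ 2 = 1 - Real.sin a ^ 2 := by linarith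
    have hc2 : Real.cos (k * a) ^ 2 = 1 - Real.sin (k * a) ^ 2 := by linarith
    ring_nf
    simp only [hc, hc2]
    ring
  refine ⟨t, htt, hxt, ?_, hyt⟩
  have hW0 : W x t a 0 = x := by
    ext i
    simp only [W, Pi.smul_apply, Pi.sub_apply, smul_eq_mul, Real.sin_zero, zero_sub, Real.sin_neg]
    field_simp
    ring
  have hWk : W x t a (k * a) = - y := by
    have e : (k * a - a : ℝ) = (k - 1) * a := by ring
    ext i
    have h := congrFun hyt i
    simp only [Pi.add_apply, Pi.smul_apply, smul_eq_mul] at h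
    simp only [W, Pi.smul_apply, Pi.sub_apply, smul_eq_mul, Pi.neg_apply]
    rw [e]
    field_simp
    ring_nf at h ⊢
    linarith
  have hunit : ∀ φ, mk (W x t a φ) (W x t a φ) = -1 := by
    intro φ
    rw [mk_W x t a φ φ hsa hx htt hxt, sub_self, Real.cos_zero]
  set S := Submonoid.closure {H57.CP.refl x, H57.CP.refl y} with hS
  have hind : ∀ j : ℕ, H57.CP.refl (W x t a (j * (k * a))) ∈ S ∧
      H57.CP.refl (W x t a ((j + 1 : ℕ) * (k * a))) ∈ S := by
    intro j
    induction j with
    | zero =>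
      constructor
      · rw [Nat.cast_zero, zero_mul, hW0]
        exact Submonoid.subset_closure (by simp)
      · rw [zero_add, Nat.cast_one, one_mul, hWk, refl_neg']
        exact Submonoid.subset_closure (by simp)
    | succ j ih =>
      refine ⟨ih.2, ?_⟩
      have h := refl_W x t a ((j + 1 : ℕ) * (k * a)) (j * (k * a)) hsa hx htt hxt
      have e : 2 * (((j + 1 : ℕ) : ℝ) * (k * a)) - j * (k * a) = ((j + 1 + 1 : ℕ) : ℝ) * (k * a) := by
        push_cast; ring
      rw [e] at h
      have h2 : H57.CP.refl (W x t a ((j + 1 + 1 : ℕ) * (k * a))) =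
          H57.CP.refl (W x t a ((j + 1 : ℕ) * (k * a))) * H57.CP.refl (W x t a (j * (k * a))) *
          H57.CP.refl (W x t a ((j + 1 : ℕ) * (k * a))) := by
        rw [← refl_conj _ _ (hunit _), h, refl_neg']
      rw [h2]
      exact S.mul_mem (S.mul_mem ih.2 ih.1) ih.2
  obtain ⟨r, hr⟩ := Nat.exists_mul_mod_eq_one_of_coprime hco (by omega)
  have hmem := (hind r).1
  have hdiv : k * r = N * (k * r / N) + 1 := by
    have := Nat.div_add_mod (k * r) N
    omega
  set m := k * r / N with hm
  have hang : ((r : ℝ) * (k * a)) = a + m * Real.pi := by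
    have h1 : ((k * r : ℕ) : ℝ) = ((N * m + 1 : ℕ) : ℝ) := by exact_mod_cast hdiv
    push_cast at h1
    have h2 : (r : ℝ) * (k * a) = (k * r) * a := by ring
    rw [h2, h1, ha]
    field_simp
    ring
  have hsin : ∀ φ : ℝ, Real.sin (φ + m * Real.pi) = (-1) ^ m * Real.sin φ := by
    intro φ
    exact Real.sin_add_nat_mul_pi φ m
  have hW : W x t a (r * (k * a)) = (-((-1 : ℝ) ^ m)) • t := by
    rw [hang]
    ext i
    have e : a + m * Real.pi - a = 0 + m * Real.pi := by ring
    simp only [W, Pi.smul_apply, Pi.sub_apply, smul_eq_mul]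
    rw [e, hsin, hsin, Real.sin_zero]
    field_simp
    ring
  rw [hW] at hmem
  rcases neg_one_pow_eq_or ℝ m with h | h
  · rw [h, neg_smul, one_smul, refl_neg'] at hmem
    exact hmem
  · rw [h, neg_neg, one_smul] at hmem
    exact hmem

end Pool.Agent.H13.TOH
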